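import Pool.Agent.Run7.h719.NV.Fin
import Pool.Agent.Results.MP_103a5c_nt.BeyondOne

/-!
# The number variance of the zeta zeros, under the Riemann hypothesis

For a fixed `β > 0` let `V(T, β)` be the variance of the number of zeros whose ordinate lies in a
random interval `(t, t + 2πβ / log T]`, `0 ≤ t ≤ T`, that is of length `β` times the mean spacing.
It is a twice integrated form of the pair correlation: `V(T, β) + β²` is asymptotic to
`∫_0^β N(T; -u, u) du / ((T/2π) log T)`, and Montgomery's conjecture gives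
`V(T, β) → Σ²(β) = β - 2 ∫_0^β (β - x) (sin πx / πx)² dx`, the number variance of the Gaussian
unitary ensemble, which grows like `π⁻² log β`.  We prove that `V(T, β)` differs from `Σ²(β)` by at
most `0.168 + 0.05/β` from above, and `0.092 + 0.017/β` from below.
-/

open MeasureTheory

namespace Pool.Agent.Results.MP_103a5c_nt.NumberVariance

/-- the number of nontrivial zeros of `ζ` with ordinate in `(t, t + h]`, with multiplicity -/
noncomputable def N (t h : ℝ) : ℕ :=
  ∑ᶠ s ∈ {s : ℂ | 0 < s.re ∧ s.re < 1 ∧ t < s.im ∧ s.im ≤ t + h ∧ riemannZeta s = 0},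
    analyticOrderNatAt riemannZeta s

/-- the number variance at the scale of `β` mean spacings -/
noncomputable def V (T β : ℝ) : ℝ :=
  1 / T * ∫ t in (0 : ℝ)..T, ((N t (2 * Real.pi * β / Real.log T) : ℝ) - β) ^ 2

/-- the number variance of the Gaussian unitary ensemble -/
noncomputable def gue (β : ℝ) : ℝ :=
  β - 2 * ∫ x in (0 : ℝ)..β, (β - x) * (Real.sin (Real.pi * x) / (Real.pi * x)) ^ 2

lemma N_eq (t h : ℝ) : N t h = H370.NN riemannZeta t (t + h) := rfl

lemma F_eq {T : ℝ} (hT : 10 ≤ T) (α : ℝ) :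
    MP_103a5c_nt.BeyondOne.F α T = (Pool.Agent.Y749.Rig.Fr T α : ℂ) := by
  rw [← Pool.Agent.Y749.Rig.P.F_eq hT α]
  unfold MP_103a5c_nt.BeyondOne.F Pool.Agent.Y749.Rig.P.F Pool.Agent.Y744.G.X
  push_cast
  rfl

lemma beyond (hRH : RiemannHypothesis) (ε : ℝ) (hε : 0 < ε) : ∀ᶠ T in Filter.atTop,
    ∀ α ∈ Set.Icc (1 : ℝ) (3 / 2), 3 / 2 - α - ε ≤ Pool.Agent.Y749.Rig.Fr T α := by
  obtain ⟨T0, h⟩ := MP_103a5c_nt.BeyondOne.result.1 ε hε
  filter_upwards [Filter.eventually_ge_atTop T0, Filter.eventually_ge_atTop 10] with T h1 h2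
  intro α hα
  have h3 := (h T h1 α hα.1 hα.2).2
  rwa [MP_103a5c_nt.BeyondOne.result.2 hRH α T, F_eq h2, Complex.ofReal_re] at h3

/-- **The number variance of the zeros, on the Riemann hypothesis.**  For every fixed `β > 0` and
all `T ≥ T₀(β)`, `Σ²(β) - 0.092 - 0.017/β ≤ V(T, β) ≤ Σ²(β) + 0.168 + 0.05/β`. -/
theorem result (hRH : RiemannHypothesis) (β : ℝ) (hβ : 0 < β) :
    ∃ T₀ : ℝ, ∀ T : ℝ, T₀ ≤ T →
      gue β - 0.092 - 0.017 / β ≤ V T β ∧ V T β ≤ gue β + 0.168 + 0.05 / β := by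
  obtain ⟨T0, hT0⟩ := Filter.eventually_atTop.1 (Run7.h719.NV.nv hRH (beyond hRH) hβ)
  refine ⟨T0, fun T hT => ?_⟩
  obtain ⟨h1, h2⟩ := hT0 T hT
  unfold V gue
  simp only [N_eq]
  constructor
  · refine le_trans (le_of_eq ?_) h1
    norm_num
  · refine h2.trans (le_of_eq ?_)
    norm_num

end Pool.Agent.Results.MP_103a5c_nt.NumberVariance
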