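import Pool.Agent.Run7.h435.LDk

/-!
**The law of the pair counts: exponential moments and large deviations with the exponents of the Gaussian
unitary ensemble.**  Under RH.

For a zero with ordinate `γ n ≤ T` let `P` be the number of the zeros with `0 < γ' - γ n ≤ 2 π x / log T`,
the number of pairs to which the zero contributes, and `W T n x = P - x`.  The pair correlation conjecture
is about the mean of `P` over the zeros up to `T`.  As `x → ∞` after `T → ∞`, the mean of `exp (l W)` over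
the zeros is `x ^ (l ^ 2 / (2 π ^ 2) + o(1))` for every real `l`, and the proportion of the zeros with
`W ≥ y log x`, and with `W ≤ - y log x`, is `x ^ (- π ^ 2 y ^ 2 / 2 + o(1))` for every `y ≥ 0`.
-/

set_option autoImplicit false

open Filter

namespace Pool.Agent.Results.MP_103a5c_nt.PairCountDeviations

/-- multiplicity of `s` as a zero of the Riemann zeta function (order of vanishing at `s`) -/
noncomputable def zmult (s : ℂ) : ℕ := analyticOrderNatAt riemannZeta s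

/-- the number of nontrivial zeros of `ζ` with ordinate in `(0, t]`, with multiplicity -/
noncomputable def NZ (t : ℝ) : ℕ :=
  ∑ᶠ s ∈ {s : ℂ | riemannZeta s = 0 ∧ 0 < s.re ∧ s.re < 1 ∧ 0 < s.im ∧ s.im ≤ t}, zmult s

/-- for `n ≥ 1`: the `n`-th positive ordinate `γ n` of a nontrivial zero of `ζ`, the ordinates being
listed in nondecreasing order and repeated according to multiplicity; so `γ n ≤ T` if and only if
`n ≤ NZ T` -/
noncomputable def γ (n : ℕ) : ℝ := sInf {t : ℝ | n ≤ NZ t}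

/-- the deviation of the pair count: the number of the zeros (with multiplicity) with ordinate `γ'` such
that `0 < γ' - γ n ≤ 2 π x / log T`, minus `x` -/
noncomputable def W (T : ℝ) (n : ℕ) (x : ℝ) : ℝ := (NZ (γ n + 2 * Real.pi * x / Real.log T) : ℝ) - NZ (γ n) - x

/-- Assume RH.  For every `ε > 0`, for all large `x`, for all large `T`, with all sums and counts over the
zeros with `0 < γ n ≤ T` in units of `(T / 2 π) log T`: the sum of `exp (l W)` is
`x ^ (l ^ 2 / (2 π ^ 2) ± ε)`, for every real `l`; and the number of the zeros with `W ≥ y log x`, and that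
of the zeros with `W ≤ - y log x`, is `x ^ (- π ^ 2 y ^ 2 / 2 ± ε)`, for every `y ≥ 0`. -/
theorem result (hRH : RiemannHypothesis) :
    (∀ l ε : ℝ, 0 < ε → ∀ᶠ x : ℝ in atTop, ∀ᶠ T : ℝ in atTop,
      x ^ (l ^ 2 / (2 * Real.pi ^ 2) - ε) ≤
        (T / (2 * Real.pi) * Real.log T)⁻¹ * ∑ n ∈ Finset.Icc 1 (NZ T), Real.exp (l * W T n x) ∧
      (T / (2 * Real.pi) * Real.log T)⁻¹ * ∑ n ∈ Finset.Icc 1 (NZ T), Real.exp (l * W T n x) ≤
        x ^ (l ^ 2 / (2 * Real.pi ^ 2) + ε)) ∧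
    (∀ y ε : ℝ, 0 ≤ y → 0 < ε → ∀ᶠ x : ℝ in atTop, ∀ᶠ T : ℝ in atTop,
      (x ^ (-(Real.pi ^ 2 * y ^ 2 / 2) - ε) ≤
        (T / (2 * Real.pi) * Real.log T)⁻¹ * ({n : ℕ | 1 ≤ n ∧ γ n ≤ T ∧ y * Real.log x ≤ W T n x}.ncard : ℝ) ∧
      (T / (2 * Real.pi) * Real.log T)⁻¹ * ({n : ℕ | 1 ≤ n ∧ γ n ≤ T ∧ y * Real.log x ≤ W T n x}.ncard : ℝ) ≤
        x ^ (-(Real.pi ^ 2 * y ^ 2 / 2) + ε)) ∧
      (x ^ (-(Real.pi ^ 2 * y ^ 2 / 2) - ε) ≤
        (T / (2 * Real.pi) * Real.log T)⁻¹ * ({n : ℕ | 1 ≤ n ∧ γ n ≤ T ∧ y * Real.log x ≤ -W T n x}.ncard : ℝ) ∧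
      (T / (2 * Real.pi) * Real.log T)⁻¹ * ({n : ℕ | 1 ≤ n ∧ γ n ≤ T ∧ y * Real.log x ≤ -W T n x}.ncard : ℝ) ≤
        x ^ (-(Real.pi ^ 2 * y ^ 2 / 2) + ε))) :=
  ⟨fun l _ hε => Run7.h435.MD.moments_Z (Run7.h435.MD.rhs_of_rhz hRH) l hε,
    fun _ _ hy hε => Run7.h435.MD.deviations_Z (Run7.h435.MD.rhs_of_rhz hRH) hy hε⟩

end Pool.Agent.Results.MP_103a5c_nt.PairCountDeviations
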