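import Pool.Agent.Run7.h527.PC.E

/-!
# Pair correlation in all short intervals near the denominators of good approximations

Assume the Riemann hypothesis. Let `G` have steps bounded below by a positive constant and `G(v) ≤ C v`, for example
`G(v) = a v + b` with `a > 0`. For almost all real `ξ` the pair correlation law of Montgomery holds near the heights `g = G(q)`,
where `q` runs through the denominators of the convergents of `ξ`, in ALL intervals `(t, t + H]` with `|t - g| ≤ g^κ` and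
`t^η ≤ H ≤ t / 40`, for ALL test functions `r` of bandwidth less than `(1 + η) / 2` and all `κ < η`, `0 < η < 1`: the sum of
`r((γ - γ') l / 2π)` over all pairs of ordinates in `(t, t + H]` is `(H l / 2π) (r(0) + ∫ r(x) (1 - (sin πx / πx)²) dx + o(1))`,
uniformly in `t`, `H` and in the scale `l = log t + O(1)`. The same is true for all `q` with `|q α_i - p_i| ≤ b q^(-1/k)` for
some integers `p_i`, for almost all `α` in `ℝ^k` and all `b`. These heights grow exponentially (for `k = 1`), so that this does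
not follow from the measure of the set of the exceptional heights.

Also the theorem on almost all heights is improved: for all `t` in `[T, 2T]` outside a set of measure `T^(1 - δ)` the law holds
for all `H` with `t^η ≤ H ≤ t / 32` and all `l = log t + O(1)` at once. The starting theorem `AlmostAllShortPairs` on this
problem has an exceptional set which depends on `H`, and the scale `log T`.

Proof. For nonnegative test functions the sum is an increasing function of the interval, so that a geometric progression of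
lengths `H` suffices, and a failure at `t` causes failures at all points of `[t, t + A)` or of `[t - A, t)`, for all
`A ≤ t^κ`. So the integers `v` with a failure near `G(v)` are a thin set: there are `O(X^θ)` of them up to `X`, `θ < 1`. The
engine `Pool.Agent.N220.CF` (starting files) treats thin sets and good approximations. For general test functions, and for the
change of the scale, a nonnegative test function `K(x) ≥ 1 / (1 + x²)` is used, the transform of `sinh (2π (μ - |α|))`: if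
`|r(ρ x) - s(x)| ≤ κ` for `|x| ≤ X`, then `|r(ρ x) - s(x)| ≤ κ (1 + X²) K(x) + (10 C / X²) K(x / X)` for all `x`, and the sum
of `K(x / X)` over the pairs is only `O(X)` times the main term. By the same inequality and the separability of the space of
the test functions the exceptional set of `ξ` does not depend on `r`.
-/

set_option autoImplicit false

open Filter Topology MeasureTheory

namespace Pool.Agent.Results.MP_103a5c_nt.PairsAtGoodApproximations

open Pool.Agent.N220.CF (FinitelyMet Approx finitely_iff_all)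
open Pool.Agent.N593.DZ (large)

/-- the nontrivial zeros of zeta with ordinate in `(a, b]` -/
def zeros (a b : ℝ) : Set ℂ :=
  {s : ℂ | riemannZeta s = 0 ∧ 0 < s.re ∧ s.re < 1 ∧ a < s.im ∧ s.im ≤ b}

/-- the multiplicity of a zero -/
noncomputable def m (s : ℂ) : ℝ := (analyticOrderNatAt riemannZeta s : ℝ)

/-- the sum of `f (γ - γ')` over the ordered pairs of ordinates of zeros in `(a, b]`, counted with multiplicity (the diagonal
pairs are included) -/
noncomputable def pairs (a b : ℝ) (f : ℝ → ℝ) : ℝ :=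
  ∑ᶠ s ∈ zeros a b, ∑ᶠ s' ∈ zeros a b, m s * m s' * f (s.im - s'.im)

/-- `r` is a test function of bandwidth `μ`: the cosine transform of a Lipschitz function that vanishes outside `(-μ, μ)`, with
`r(x) = O(x⁻²)` -/
def Test (μ : ℝ) (r : ℝ → ℝ) : Prop :=
  ∃ ψ : ℝ → ℝ, (∃ K : ℝ, ∀ x y, |ψ x - ψ y| ≤ K * |x - y|) ∧ (∀ x, μ ≤ |x| → ψ x = 0) ∧
    (∀ x, r x = ∫ α in (-μ)..μ, ψ α * Real.cos (2 * Real.pi * α * x)) ∧
    ∃ C : ℝ, ∀ x, |r x| * x ^ 2 ≤ C

/-- the pair sum of the ordinates in `(t, t + H]` at the scale `l`, divided by `H l / 2π` -/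
noncomputable def P (r : ℝ → ℝ) (t H l : ℝ) : ℝ :=
  (H * l / (2 * Real.pi))⁻¹ * pairs t (t + H) (fun d => r (d * l / (2 * Real.pi)))

/-- the main term -/
noncomputable def M (r : ℝ → ℝ) : ℝ :=
  r 0 + ∫ x, r x * (1 - (Real.sin (Real.pi * x) / (Real.pi * x)) ^ 2)

/-- **The law at the height `t`**: `|P r t H l - M r| ≤ ε` for all `H` with `t^η ≤ H ≤ t / d` and all scales `l` with
`|l - log t| ≤ c`. -/
def Law (r : ℝ → ℝ) (ε η c d t : ℝ) : Prop :=
  ∀ H : ℝ, t ^ η ≤ H → H ≤ t / d → ∀ l : ℝ, |l - Real.log t| ≤ c → |P r t H l - M r| ≤ ε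

/-- **The law near `g`**: `Law r ε η c 40 t` for all `t` with `|t - g| ≤ g^κ`. -/
def Near (r : ℝ → ℝ) (ε η κ c g : ℝ) : Prop := ∀ t : ℝ, |t - g| ≤ g ^ κ → Law r ε η c 40 t

lemma pairs_eq (r : ℝ → ℝ) (t H l : ℝ) :
    pairs t (t + H) (fun d => r (d * l / (2 * Real.pi))) = Run7.h527.PC.S r t (t + H) l := by
  have e : zeros t (t + H) = H370.zset riemannZeta t (t + H) := by
    ext s
    simp only [zeros, H370.zset, Set.mem_ofPred_eq]
    tauto
  unfold pairs Run7.h527.PC.S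
  rw [e]
  rfl

lemma law_of {r : ℝ → ℝ} {ε t H l : ℝ} (hm : 0 < H * l / (2 * Real.pi)) (h : Run7.h527.PC.Law r ε t H l) :
    |P r t H l - M r| ≤ ε := by
  unfold Run7.h527.PC.Law at h
  unfold P
  rw [pairs_eq]
  obtain ⟨w, hw⟩ : ∃ w : ℝ, w = H * l / (2 * Real.pi) := ⟨_, rfl⟩
  rw [← hw] at h hm ⊢
  have e : w⁻¹ * Run7.h527.PC.S r t (t + H) l - M r = w⁻¹ * (Run7.h527.PC.S r t (t + H) l - w * M r) := by
    rw [mul_sub, inv_mul_cancel_left₀ hm.ne']
  rw [e, abs_mul, abs_of_pos (inv_pos.2 hm), inv_mul_eq_div, div_le_iff₀ hm]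
  exact h

lemma law_all_of {r : ℝ → ℝ} {ε η c d t : ℝ} (ht : 1 ≤ t) (hc : c < Real.log t)
    (h : Run7.h527.PC.LawAll r ε η c d t) : Law r ε η c d t := by
  intro H hH1 hH2 l hl
  have hpi := Real.pi_pos
  have h1 := (abs_le.1 hl).1
  have hl0 : 0 < l := by linarith
  have hH0 : 0 < H := lt_of_lt_of_le (Real.rpow_pos_of_pos (by linarith) _) hH1
  exact law_of (by positivity) (h H hH1 hH2 l hl)

/-- almost all heights -/
theorem almost_all (hRH : RiemannHypothesis) (η μ ε c : ℝ) (hη0 : 0 < η) (hη1 : η < 1) (hμ : 0 < μ)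
    (hgap : μ < (1 + η) / 2) (hε : 0 < ε) (r : ℝ → ℝ) (hr : Test μ r) :
    ∃ δ : ℝ, 0 < δ ∧ ∃ T₀ : ℝ, ∀ T : ℝ, T₀ ≤ T →
      volume {t : ℝ | T ≤ t ∧ t ≤ 2 * T ∧ ¬ Law r ε η c 32 t} ≤ ENNReal.ofReal (T ^ (1 - δ)) := by
  obtain ⟨δ, hδ, T0, hT0, h⟩ := Run7.h527.PC.few hRH hη0 hη1 hμ (by linarith) hε hr c
  refine ⟨δ, hδ, max T0 (Real.exp (c + 1)), fun T hT => (measure_mono ?_).trans (h T ((le_max_left _ _).trans hT))⟩
  rintro t ⟨ht1, ht2, ht3⟩
  have hT1 : T0 ≤ T := (le_max_left _ _).trans hT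
  have hT2 : Real.exp (c + 1) ≤ T := (le_max_right _ _).trans hT
  refine ⟨fun hgood => ht3 (law_all_of (by linarith) ?_ hgood), ht1, ht2⟩
  have : c + 1 ≤ Real.log t := (Real.le_log_iff_exp_le (by linarith)).2 (hT2.trans ht1)
  linarith

/-- a positive lower bound for the points near `g` -/
lemma near_large {κ : ℝ} (hκ : κ < 1) (B : ℝ) : ∃ g₀ : ℝ, ∀ g : ℝ, g₀ ≤ g → ∀ t : ℝ, |t - g| ≤ g ^ κ → B ≤ t := by
  obtain ⟨Y, hY⟩ := eventually_atTop.1 (((tendsto_rpow_atTop (show 0 < 1 - κ by linarith)).eventually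
    (eventually_ge_atTop (2 : ℝ))).and (eventually_ge_atTop (1 : ℝ)))
  refine ⟨max Y (2 * |B|), fun g hg t ht => ?_⟩
  obtain ⟨h1, h2⟩ := hY g ((le_max_left _ _).trans hg)
  have h3 : 2 * |B| ≤ g := (le_max_right _ _).trans hg
  have h4 := mul_le_mul_of_nonneg_right h1 (show 0 ≤ g ^ κ by positivity)
  rw [← Real.rpow_add (by linarith), sub_add_cancel, Real.rpow_one] at h4
  have h5 := (abs_le.1 ht).1
  linarith [le_abs_self B]

lemma not_law {G : ℕ → ℝ} {a C : ℝ} (ha : 0 < a) (h : ∀ v : ℕ, 1 ≤ v → a ≤ G (v + 1) - G v)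
    (hG : ∀ v : ℕ, 1 ≤ v → G v ≤ C * v) {η μ ε κ c : ℝ} (hη0 : 0 < η) (hη1 : η < 1) (hμ : 0 < μ)
    (hgap : μ < (1 + η) / 2) (hκ : κ < η) (hε : 0 < ε) {r : ℝ → ℝ} (hr : Test μ r) :
    ∃ i : (ℚ × ℚ × ℚ) × (ℕ × ℕ × ℕ) × ℕ × ℕ, ∃ q₀ : ℕ, ∀ q : ℕ, q₀ ≤ q → ¬ Near r ε η κ c (G q) →
      q ∈ Run7.h527.PC.W G i := by
  obtain ⟨i, q₀, hi⟩ := Run7.h527.PC.not_law ha h hG (c := c) hη0 hη1 hμ hgap hκ hε hr
  obtain ⟨g₀, hg₀⟩ := near_large (κ := κ) (by linarith) (max 1 (Real.exp (c + 1)))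
  obtain ⟨q₁, hq₁⟩ := large ha h g₀
  refine ⟨i, max q₀ q₁, fun q hq hbad => hi q ((le_max_left _ _).trans hq) fun hgood => hbad ?_⟩
  intro t ht
  have h1 := hg₀ (G q) (hq₁ q ((le_max_right _ _).trans hq)) t ht
  have h2 : 1 ≤ t := (le_max_left _ _).trans h1
  refine law_all_of h2 ?_ (hgood t ht)
  have : c + 1 ≤ Real.log t := (Real.le_log_iff_exp_le (by linarith)).2 ((le_max_right _ _).trans h1)
  linarith

/-- **Pair correlation near the denominators of good approximations.** Assume the Riemann hypothesis. (1) For `0 < η < 1`,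
`0 < μ < (1 + η) / 2`, every test function `r` of bandwidth `μ`, `ε > 0` and `c` there is `δ > 0` such that `Law r ε η c 32 t`
is true for all `t` in `[T, 2T]` outside a set of measure `T^(1 - δ)`, for all large `T`. (2) Let `G` have steps `≥ a > 0` and
`G v ≤ C v`. For all `k ≥ 1` and almost all `α` in `ℝ^k`, for ALL `η`, `κ < η`, `μ < (1 + η) / 2`, `ε`, `c`, `b` and ALL test
functions `r` of bandwidth `μ`, all but finitely many `q ≥ 1` with `|q α_i - p_i| ≤ b q^(-1/k)` for all `i` and some integers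
`p_i` satisfy `Near r ε η κ c (G q)`: the law holds in all intervals `(t, t + H]` with `|t - G q| ≤ (G q)^κ` and
`t^η ≤ H ≤ t / 40`. (3) For almost all real `ξ` the same is true for all but finitely many denominators `q` of the convergents
of `ξ`. -/
theorem result (hRH : RiemannHypothesis) :
    (∀ η μ ε c : ℝ, 0 < η → η < 1 → 0 < μ → μ < (1 + η) / 2 → 0 < ε → ∀ r : ℝ → ℝ, Test μ r →
      ∃ δ : ℝ, 0 < δ ∧ ∃ T₀ : ℝ, ∀ T : ℝ, T₀ ≤ T →
        volume {t : ℝ | T ≤ t ∧ t ≤ 2 * T ∧ ¬ Law r ε η c 32 t} ≤ ENNReal.ofReal (T ^ (1 - δ))) ∧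
    ∀ (G : ℕ → ℝ) (a C : ℝ), 0 < a → (∀ v : ℕ, 1 ≤ v → a ≤ G (v + 1) - G v) → (∀ v : ℕ, 1 ≤ v → G v ≤ C * v) →
      (∀ k : ℕ, 1 ≤ k → ∀ᵐ α : Fin k → ℝ, ∀ (η μ ε κ c b : ℝ) (r : ℝ → ℝ), 0 < η → η < 1 → 0 < μ → μ < (1 + η) / 2 →
        κ < η → 0 < ε → Test μ r → {q : ℕ | Approx b (1 / k) α q ∧ ¬ Near r ε η κ c (G q)}.Finite) ∧
      ∀ᵐ ξ : ℝ, ∀ (η μ ε κ c : ℝ) (r : ℝ → ℝ), 0 < η → η < 1 → 0 < μ → μ < (1 + η) / 2 → κ < η → 0 < ε → Test μ r →
        ∀ᶠ n : ℕ in atTop, Near r ε η κ c (G (ξ.convergent n).den) := by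
  refine ⟨fun η μ ε c hη0 hη1 hμ hgap hε r hr => almost_all hRH η μ ε c hη0 hη1 hμ hgap hε r hr,
    fun G a C ha h hG => ?_⟩
  obtain ⟨h1, h2⟩ := finitely_iff_all (ι := (ℚ × ℚ × ℚ) × (ℕ × ℕ × ℕ) × ℕ × ℕ) (W := Run7.h527.PC.W G)
    (fun i => (Run7.h527.PC.thin_W hRH ha h hG i).finitely)
  refine ⟨fun k hk => ?_, ?_⟩
  · filter_upwards [h1 k hk] with α hα η μ ε κ c b r h3 h4 hμ hgap hκ hε hr
    obtain ⟨i, q₀, hi⟩ := not_law ha h hG (c := c) h3 h4 hμ hgap hκ hε hr
    refine ((hα i b).union (Set.finite_lt_nat q₀)).subset fun q hq => ?_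
    rcases lt_or_ge q q₀ with hq1 | hq1
    · exact Or.inr hq1
    · exact Or.inl ⟨hq.1, hi q hq1 hq.2⟩
  · have h5 : ∀ q₀ : ℕ, ∀ᵐ ξ : ℝ, ∀ᶠ n : ℕ in atTop, (ξ.convergent n).den ∉ {q : ℕ | q < q₀} :=
      fun q₀ => (Pool.Agent.N593.DZ.finitely_lt q₀).2
    filter_upwards [h2, ae_all_iff.2 h5] with ξ hξ hξ2 η μ ε κ c r h3 h4 hμ hgap hκ hε hr
    obtain ⟨i, q₀, hi⟩ := not_law ha h hG (c := c) h3 h4 hμ hgap hκ hε hr
    filter_upwards [hξ i, hξ2 q₀] with n hn hn2
    by_contra hcon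
    exact hn (hi _ (not_lt.1 hn2) hcon)

end Pool.Agent.Results.MP_103a5c_nt.PairsAtGoodApproximations
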