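import Pool.Agent.Run7.h719.PC.Zeta

/-!
# The constant `∫_κ^∞ F(α, T) α⁻² dα` (variance of `S(t)`), under the Riemann hypothesis

Goldston expressed the second order term of `∫_0^T S(t)² dt` under the Riemann hypothesis through
`∫_1^∞ F(α, T) α⁻² dα`, for which Montgomery's pair correlation conjecture predicts the value `1`;
for a fixed `κ ∈ (0, 1)` it predicts `∫_κ^∞ F(α, T) α⁻² dα = log (1/κ) + 1 + o(1)`, in which the
contribution of `α < 1` is known.  We prove that the integral lies between `log (1/κ) + 0.92` and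
`log (1/κ) + 1.82`.
-/

open Complex

namespace Pool.Agent.Results.MP_103a5c_nt.SecondMomentConstant

/-- the nontrivial zeros of `ζ` with ordinate in `(0, T]` -/
def zeros (T : ℝ) : Set ℂ :=
  {s : ℂ | 0 < s.re ∧ s.re < 1 ∧ 0 < s.im ∧ s.im ≤ T ∧ riemannZeta s = 0}

/-- the multiplicity of `s` as a zero of `ζ` -/
noncomputable def mult (s : ℂ) : ℕ := analyticOrderNatAt riemannZeta s

/-- Montgomery's function `F(α, T)`:
`((T/2π) log T)⁻¹ ∑_γ ∑_γ' T ^ (iα(γ - γ')) w(γ - γ')`, `w(u) = 4 / (4 + u²)`, the zeros being counted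
with multiplicity -/
noncomputable def F (α T : ℝ) : ℂ :=
  ((T / (2 * Real.pi) * Real.log T : ℝ) : ℂ)⁻¹ *
    ∑ᶠ s ∈ zeros T, ∑ᶠ s' ∈ zeros T, (mult s : ℂ) * (mult s' : ℂ) *
      ((T : ℂ) ^ (I * α * ((s.im - s'.im : ℝ) : ℂ)) * (4 / (4 + ((s.im - s'.im : ℝ) : ℂ) ^ 2)))

lemma F_eq {T : ℝ} (hT : 10 ≤ T) (α : ℝ) : F α T = (Pool.Agent.Y749.Rig.Fr T α : ℂ) := by
  rw [← Pool.Agent.Y749.Rig.P.F_eq hT α]
  unfold F Pool.Agent.Y749.Rig.P.F Pool.Agent.Y744.G.X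
  push_cast
  rfl

lemma beyond (hRH : RiemannHypothesis) (ε : ℝ) (hε : 0 < ε) : ∀ᶠ T in Filter.atTop,
    ∀ α ∈ Set.Icc (1 : ℝ) (3 / 2), 3 / 2 - α - ε ≤ Pool.Agent.Y749.Rig.Fr T α := by
  obtain ⟨T0, h⟩ := MP_103a5c_nt.BeyondOne.result.1 ε hε
  filter_upwards [Filter.eventually_ge_atTop T0, Filter.eventually_ge_atTop 10] with T h1 h2
  intro α hα
  have h3 := (h T h1 α hα.1 hα.2).2
  rw [MP_103a5c_nt.BeyondOne.result.2 hRH α T] at h3
  have h4 : MP_103a5c_nt.BeyondOne.F α T = F α T := rfl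
  rw [h4, F_eq h2, Complex.ofReal_re] at h3
  exact h3

/-- **Bounds for the constant of the variance of `S(t)`, on the Riemann hypothesis.**  For every
fixed `κ ∈ (0, 1)` and all `T ≥ T₀(κ)`, `F(α, T)` is real and nonnegative, and
`log (1/κ) + 0.92 ≤ ∫_κ^∞ F(α, T) α⁻² dα ≤ log (1/κ) + 1.82`. -/
theorem result (hRH : RiemannHypothesis) (κ : ℝ) (h0 : 0 < κ) (h1 : κ < 1) :
    ∃ T₀ : ℝ, ∀ T : ℝ, T₀ ≤ T →
      (∀ α : ℝ, (F α T).im = 0 ∧ 0 ≤ (F α T).re) ∧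
      MeasureTheory.IntegrableOn (fun α => (F α T).re / α ^ 2) (Set.Ioi κ) ∧
      Real.log (1 / κ) + 0.92 ≤ ∫ α in Set.Ioi κ, (F α T).re / α ^ 2 ∧
      ∫ α in Set.Ioi κ, (F α T).re / α ^ 2 ≤ Real.log (1 / κ) + 1.82 := by
  have h := (Run7.h719.PC.zeta_bounds hRH (beyond hRH) h0 h1).and (Filter.eventually_ge_atTop 10)
  obtain ⟨T0, hT0⟩ := Filter.eventually_atTop.1 h
  refine ⟨T0, fun T hT => ?_⟩
  obtain ⟨⟨h2, h3, h4⟩, h5⟩ := hT0 T hT
  have e : (fun α => (F α T).re / α ^ 2) =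
      fun α => 1 / α ^ 2 * Pool.Agent.Y749.Rig.Fr T α := by
    funext α
    rw [F_eq h5, Complex.ofReal_re]
    ring
  rw [e]
  refine ⟨fun α => ?_, h2, ?_, ?_⟩
  · rw [F_eq h5]
    exact ⟨Complex.ofReal_im _, by
      rw [Complex.ofReal_re]
      exact Pool.Agent.Y749.Rig.Fr_nonneg h5 α⟩
  · refine le_trans (le_of_eq ?_) h3
    norm_num
  · refine h4.trans (le_of_eq ?_)
    norm_num

end Pool.Agent.Results.MP_103a5c_nt.SecondMomentConstant
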